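import Pool.Agent.H.MP_bb4c62_an.helper6.NDefs

/-!
Vectors with independent orbits modulo finite dimensional subspaces.
-/

namespace Pool.Agent.H.MP_bb4c62_an.helper6.NL

open Complex Metric Set Filter Topology
open Pool.Agent.H.MP_bb4c62_an.helper6.Perturb
open Pool.Agent.H.MP_bb4c62_an.helper6.Gadgets

variable {X : Type*} [NormedAddCommGroup X] [NormedSpace ℂ X]

/-- A polynomial of degree at most `N` in `w` which kills `e` is zero. -/
theorem aeval_eq_zero_imp [CompleteSpace X] {w : X →L[ℂ] X} (hw : QN w) {e : X} {N : ℕ}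
    (he : (w ^ N) e ≠ 0) {p : Polynomial ℂ} (hp : p.natDegree ≤ N)
    (h : (Polynomial.aeval w p) e = 0) : p = 0 := by
  have hli := li_pow hw he
  rw [Fintype.linearIndependent_iff] at hli
  have h1 : ∑ k : Fin (N + 1), p.coeff k • (w ^ (k : ℕ)) e = 0 := by
    rw [Polynomial.aeval_eq_sum_range' (Nat.lt_succ_of_le hp)] at h
    rw [Fin.sum_univ_eq_sum_range (fun k => p.coeff k • (w ^ k) e) (N + 1)]
    rw [← h, sum_apply]
    rfl
  have h2 := hli (fun k => p.coeff k) h1
  ext k
  rw [Polynomial.coeff_zero]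
  by_cases hk : k < N + 1
  · exact h2 ⟨k, hk⟩
  · exact Polynomial.coeff_eq_zero_of_natDegree_lt (by omega)

/-- Polynomials of degree at most 4 placed in disjoint blocks are independent. -/
theorem blocks_zero {n : ℕ} (P : Fin n → Polynomial ℂ) (hP : ∀ j, (P j).natDegree ≤ 4)
    (hP0 : ∀ j, P j ≠ 0) (t : Fin n → ℂ)
    (h : ∑ j : Fin n, Polynomial.C (t j) * (Polynomial.X ^ (5 * (j : ℕ)) * P j) = 0) :
    ∀ j, t j = 0 := by
  intro j0
  have h1 := congrArg (fun p => Polynomial.coeff p (5 * (j0 : ℕ) + (P j0).natDegree)) h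
  simp only [Polynomial.finsetSum_coeff, Polynomial.coeff_C_mul, Polynomial.coeff_X_pow_mul',
    Polynomial.coeff_zero] at h1
  rw [Finset.sum_eq_single j0] at h1
  · rw [if_pos (Nat.le_add_right _ _), Nat.add_sub_cancel_left] at h1
    rcases mul_eq_zero.mp h1 with h2 | h2
    · exact h2
    · exact absurd h2 (by simpa using hP0 j0)
  · intro j _ hj
    have hne : (j : ℕ) ≠ j0 := fun h => hj (Fin.ext h)
    have := hP j0
    split_ifs with hle
    · rw [Polynomial.coeff_eq_zero_of_natDegree_lt, mul_zero]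
      have := hP j
      omega
    · rw [mul_zero]
  · simp

theorem exists_indep3 [CompleteSpace X] {w : X →L[ℂ] X} (hw : QN w)
    (hnil : ∀ n : ℕ, w ^ n ≠ 0) (Z : Submodule ℂ X) (hZ : Z.FG) (f θ : X →L[ℂ] ℂ) :
    ∃ u : X, f u = 0 ∧ θ u = 0 ∧
      ∀ a b c : ℂ, a • u + b • w u + c • w (w u) ∈ Z → a = 0 ∧ b = 0 ∧ c = 0 := by
  classical
  have : Module.Finite ℂ Z := Module.Finite.iff_fg.mpr hZ
  set d := Module.finrank ℂ Z with hd
  set N := 5 * (d + 1) with hN
  obtain ⟨e, he⟩ : ∃ e, (w ^ N) e ≠ 0 := by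
    by_contra hcon
    push Not at hcon
    exact hnil N (by ext x; simpa using hcon x)
  by_contra hcon
  push Not at hcon
  -- the vectors of the blocks
  have hblock : ∀ j : Fin (d + 1), ∃ Q : Polynomial ℂ, Q ≠ 0 ∧ Q.natDegree ≤ 2 ∧
      f ((Polynomial.aeval w (Polynomial.X ^ (5 * (j : ℕ)) * Q)) e) = 0 ∧
      θ ((Polynomial.aeval w (Polynomial.X ^ (5 * (j : ℕ)) * Q)) e) = 0 := by
    intro j
    obtain ⟨q, hq0, hq1, hq2⟩ := exists_comb3
      (fun i : Fin 3 => f ((w ^ (5 * (j : ℕ) + i)) e)) (fun i => θ ((w ^ (5 * (j : ℕ) + i)) e))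
    let Q : Polynomial ℂ := ∑ i : Fin 3, Polynomial.monomial (i : ℕ) (q i)
    have hQ : ∀ g : X →L[ℂ] ℂ, g ((Polynomial.aeval w (Polynomial.X ^ (5 * (j : ℕ)) * Q)) e) =
        ∑ i : Fin 3, q i * g ((w ^ (5 * (j : ℕ) + i)) e) := by
      intro g
      simp only [Q, Finset.mul_sum, map_sum, sum_apply]
      refine Finset.sum_congr rfl fun i _ => ?_
      rw [map_mul, Polynomial.aeval_monomial, map_pow, Polynomial.aeval_X,
        ← mul_assoc, ← Algebra.commutes, mul_assoc, ← pow_add]
      rw [Algebra.algebraMap_eq_smul_one, smul_mul_assoc, one_mul]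
      change g (q i • _) = _
      rw [map_smul, smul_eq_mul]
      rfl
    refine ⟨Q, ?_, ?_, ?_, ?_⟩
    · intro hQ0
      apply hq0
      ext i
      have := congrArg (fun p => Polynomial.coeff p (i : ℕ)) hQ0
      simp only [Q, Polynomial.finsetSum_coeff, Polynomial.coeff_monomial,
        Polynomial.coeff_zero] at this
      rw [Finset.sum_eq_single i] at this
      · simpa using this
      · intro i' _ hi'
        have : (i' : ℕ) ≠ (i : ℕ) := fun h => hi' (Fin.ext h)
        simp [this]
      · simp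
    · refine Polynomial.natDegree_sum_le_of_forall_le _ _ ?_
      intro i _
      exact (Polynomial.natDegree_monomial_le _).trans (by omega)
    · rw [hQ]; exact hq1
    · rw [hQ]; exact hq2
  choose Q hQ0 hQd hQf hQθ using hblock
  have hbad := fun j => hcon _ (hQf j) (hQθ j)
  choose a b c hmem hne using hbad
  let P : Fin (d + 1) → Polynomial ℂ := fun j =>
    (Polynomial.C (a j) + Polynomial.C (b j) * Polynomial.X +
      Polynomial.C (c j) * Polynomial.X ^ 2) * Q j
  have hPd : ∀ j, (P j).natDegree ≤ 4 := by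
    intro j
    refine Polynomial.natDegree_mul_le.trans ?_
    have h1 := hQd j
    have h2 : (Polynomial.C (a j) + Polynomial.C (b j) * Polynomial.X +
      Polynomial.C (c j) * Polynomial.X ^ 2).natDegree ≤ 2 := by
      compute_degree
    omega
  have hP0 : ∀ j, P j ≠ 0 := by
    intro j
    refine mul_ne_zero ?_ (hQ0 j)
    intro h0
    have c0 := congrArg (fun p => Polynomial.coeff p 0) h0
    have c1 := congrArg (fun p => Polynomial.coeff p 1) h0
    have c2 := congrArg (fun p => Polynomial.coeff p 2) h0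
    simp [Polynomial.coeff_X, Polynomial.coeff_C] at c0 c1 c2
    exact hne j c0 c1 c2
  let z : Fin (d + 1) → Z := fun j =>
    ⟨(Polynomial.aeval w (Polynomial.X ^ (5 * (j : ℕ)) * P j)) e, by
      have := hmem j
      convert this using 1
      simp only [P, map_mul, map_add, Polynomial.aeval_C, Polynomial.aeval_X, map_pow,
        Algebra.algebraMap_eq_smul_one]
      have e1 : w ^ (5 * (j : ℕ)) * ((a j • (1 : X →L[ℂ] X) + b j • (1 : X →L[ℂ] X) * w +
          c j • (1 : X →L[ℂ] X) * w ^ 2) * (Polynomial.aeval w) (Q j)) =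
          (a j • (1 : X →L[ℂ] X) + b j • (1 : X →L[ℂ] X) * w +
          c j • (1 : X →L[ℂ] X) * w ^ 2) * (w ^ (5 * (j : ℕ)) * (Polynomial.aeval w) (Q j)) := by
        rw [← mul_assoc, ← mul_assoc]
        congr 1
        simp only [mul_add, add_mul, smul_mul_assoc, one_mul, mul_smul_comm, mul_one, ← pow_succ,
          ← pow_succ', ← pow_add]
        rw [add_comm 2]
      rw [e1, pow_two]
      rfl⟩
  have hli : LinearIndependent ℂ z := by
    rw [Fintype.linearIndependent_iff]
    intro t ht
    have ht' : ∑ j, t j • ((Polynomial.aeval w (Polynomial.X ^ (5 * (j : ℕ)) * P j)) e) = 0 := by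
      have := congrArg (fun v : Z => (v : X)) ht
      simpa [z] using this
    refine blocks_zero P hPd hP0 t ?_
    refine aeval_eq_zero_imp hw he ?_ ?_
    · refine Polynomial.natDegree_sum_le_of_forall_le _ _ ?_
      intro j _
      refine (Polynomial.natDegree_C_mul_le _ _).trans ?_
      refine Polynomial.natDegree_mul_le.trans ?_
      rw [Polynomial.natDegree_X_pow]
      have h1 := hPd j
      have h2 := j.2
      omega
    · rw [map_sum, sum_apply, ← ht']
      refine Finset.sum_congr rfl fun j _ => ?_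
      rw [map_mul, Polynomial.aeval_C, Algebra.algebraMap_eq_smul_one, smul_mul_assoc, one_mul]
      rfl
  have := hli.fintype_card_le_finrank
  rw [Fintype.card_fin, ← hd] at this
  omega

end Pool.Agent.H.MP_bb4c62_an.helper6.NL
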